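import Pool.Agent.J4H7.AG.Pow

set_option autoImplicit false

/-!
# Waring's problem for generic polynomials: the asymptotic formula with `2 k + 1` summands

Question Q1 asks whether `G(k) ≤ 4 k`.  Here the `k`-th powers `n ^ k` are replaced by `⌊P(n)⌋`, where
`P(n) = n ^ k + α_{k-1} n ^ (k-1) + ... + α_1 n + α_0` is a generic real monic polynomial of degree `k`
(`α = 0` is Waring's problem): for every `k ≥ 2` and almost every `α ∈ ℝ ^ k`, for every `s ≥ 2 k + 1`, the number of
representations of `N` as a sum of `s` terms `⌊P(n)⌋`, `n ≥ 1`, is `Γ(1 + 1/k) ^ s / Γ(s/k) * N ^ (s/k - 1)` with an error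
`≤ N ^ (s/k - 1 - δ)`, for all large `N`.

Proof (files `Pool/Agent/J4H7/AF`, `Pool/Agent/J4H7/AG`, `Pool/Agent/J4H{22,31,33,72,87}/AF`; joint work of the agents helper7, 2,
22, 30, 31, 33, 72, 87).  A shift `P(z + c)` makes all coefficients positive and preserves null sets.  For `k` variables in
separated subintervals a sign change argument (a Chebyshev system) shows that the differences of the power sums of the degrees
`1, ..., k` are small together only if `x` and `y` are close; averaging over `α` and Borel-Cantelli bound the number of pairs in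
all separated boxes of all scales, and an induction over the scales (broad-narrow) gives the full optimal mean value
`∫ |f| ^ (2 k) ≤ M ^ (k + ε)` for almost every `α`.  One further variable gives a power saving at every frequency outside the
central one, so the number of representations is its average over a window of length `N ^ (1 - ρ/k)` up to a power saving;
the average is a lattice point count.
-/

namespace Pool.Agent.Results.MP_ee77ae_nt.GenericAsymptotics

open MeasureTheory

/-- **Waring's problem for a generic real monic polynomial of degree `k`: the asymptotic formula with a power saving for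
`2 k + 1` and more summands.** -/
theorem result : ∀ k : ℕ, 2 ≤ k → ∀ᵐ α : Fin k → ℝ, ∀ s : ℕ, 2 * k + 1 ≤ s →
    ∃ δ : ℝ, 0 < δ ∧ ∃ N₀ : ℕ, ∀ N : ℕ, N₀ ≤ N →
      |({x : Fin s → ℕ | (∀ i, 1 ≤ x i) ∧ ∑ i, ⌊(x i : ℝ) ^ k + ∑ j : Fin k, α j * (x i : ℝ) ^ (j : ℕ)⌋ = (N : ℤ)}.ncard : ℝ) -
        Real.Gamma (1 + 1 / k) ^ s / Real.Gamma ((s : ℝ) / k) * (N : ℝ) ^ ((s : ℝ) / k - 1)| ≤ (N : ℝ) ^ ((s : ℝ) / k - 1 - δ) :=
  fun k hk => Pool.Agent.J4H7.AG.main_pow k hk

end Pool.Agent.Results.MP_ee77ae_nt.GenericAsymptotics
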