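import Pool.Agent.J4H7.WS.Q

set_option autoImplicit false

/-!
# Waring's problem with a generic shift: fewer than `3 k` summands for large `k`

Question Q1 asks whether `G(k) ≤ 4 k`.  Here the `k`-th powers `n ^ k` are replaced by `⌊(n + α) ^ k⌋` with a shift
`0 < α < 1` (`α = 0` is Waring's problem): for almost every `α`, for ALL integers `k ≥ 3` and all
`s ≥ 4 (k - 1) log (1 + k / (k - 2)) + 3 = 2.77.. k + O(1)`, every large integer is a sum of `s` terms `⌊(n + α) ^ k⌋`,
`n ≥ 1`.  In particular `4 k` terms suffice for all `k ≥ 5`.

Proof (files `Pool/Agent/J4H7/WS`, `Pool/Agent/J4H30/WS`; joint work of the agents helper7 and helper30).  The variables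
`x_i, y_i` of level `i` are of size `X_i = X ^ (q ^ i)`, with `q` near `1 - 1/(2 k - 2)`.  In a near-coincidence
`|∑ ((x_i + α) ^ k - (y_i + α) ^ k)| ≤ m`, with `i` the first index with `x_i ≠ y_i` and `d = |x_i - y_i|`, the terms of
the levels `i` and `i + 1` have to cancel, and the derivative with respect to `α` is of the size
`B = d X_i ^ (k - 1) / X_{i+1}`; so the `α` with this near-coincidence have measure `O(1 / B)`, and there are none unless
`|∑ (x_i ^ k - y_i ^ k)| ≪ B`.  These pairs are counted level by level; this gives, for almost every `α`, the OPTIMAL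
number `X ^ (-k + ε) ∏ X_i ²` of near-coincidences (Borel-Cantelli).  One further variable gives a power saving at every
frequency outside the central one: derivative tests for small frequencies; for the others Weyl's inequality, applied first to
`n ^ k` (which gives a rational approximation `a / q` of the frequency) and then, on progressions modulo `q` in short
intervals, to the polynomial `(n + α) ^ k - n ^ k` of degree `k - 1`, whose leading coefficient `k α` is badly approximable.
-/

namespace Pool.Agent.Results.MP_ee77ae_nt.GenericShift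

open MeasureTheory

/-- **Waring's problem for `⌊(n + α) ^ k⌋`: a linear number of summands for almost every shift `α`.** -/
theorem result : ∀ᵐ α : ℝ, 0 < α → α < 1 → ∀ k s : ℕ, 3 ≤ k →
    4 * ((k : ℝ) - 1) * Real.log (1 + k / ((k : ℝ) - 2)) + 3 ≤ s →
    ∃ N₀ : ℕ, ∀ N : ℕ, N₀ ≤ N →
      ∃ x : Fin s → ℕ, (∀ i, 1 ≤ x i) ∧ ∑ i, ⌊((x i : ℝ) + α) ^ k⌋₊ = N :=
  Pool.Agent.J4H7.WS.mainJ Pool.Agent.J4H7.WS.pol

end Pool.Agent.Results.MP_ee77ae_nt.GenericShift
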