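import Pool.Agent.J4H38.SW.Main

/-!
# Smoothed Waring: randomly perturbed `k`-th powers

Problem MP_ee77ae_nt asks whether every large integer is a sum of `4k` positive `k`-th powers.
Here every `n ^ k` is replaced by `n ^ k + X n`, where the `X n` are independent random
perturbations of size at most `C n ^ (γ k)`, `0 < γ < 1`.
-/

set_option autoImplicit false

open MeasureTheory ProbabilityTheory

namespace Pool.Agent.Results.MP_ee77ae_nt.SmoothedWaring

/-- The perturbations `X n` (`n ≥ 1`): measurable, independent, with values in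
`[0, C n ^ (γ k)]`, no value has probability more than `C / n ^ (γ k)`, and every value
`≤ c n ^ (γ k)` has probability at least `c / n ^ (γ k)`. -/
structure Smoothed {Ω : Type*} [MeasurableSpace Ω] (μ : Measure Ω) (X : ℕ → Ω → ℕ) (k : ℕ)
    (γ c C : ℝ) : Prop where
  meas : ∀ n, Measurable (X n)
  indep : iIndepFun X μ
  le : ∀ n : ℕ, 1 ≤ n → ∀ j : ℕ, C * (n : ℝ) ^ (γ * k) < j → μ.real {ω | X n ω = j} = 0
  upper : ∀ n : ℕ, 1 ≤ n → ∀ j : ℕ, μ.real {ω | X n ω = j} ≤ C / (n : ℝ) ^ (γ * k)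
  lower : ∀ n : ℕ, 1 ≤ n → ∀ j : ℕ, (j : ℝ) ≤ c * (n : ℝ) ^ (γ * k) →
    c / (n : ℝ) ^ (γ * k) ≤ μ.real {ω | X n ω = j}

/-- Every large integer is a sum of `s` terms `n ^ k + x n`, `n ≥ 1`. -/
def AllLarge (k : ℕ) (x : ℕ → ℕ) (s : ℕ) : Prop :=
  ∃ N₀ : ℕ, ∀ N : ℕ, N₀ ≤ N → ∃ n : Fin s → ℕ, (∀ i, 1 ≤ n i) ∧ N = ∑ i, (n i ^ k + x (n i))

/-- The concrete model: the product of the uniform distributions on `{0, …, ⌊n ^ (γ k)⌋}`. -/
noncomputable def uniformModel (k : ℕ) (γ : ℝ) : Measure (ℕ → ℕ) :=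
  Measure.infinitePi (fun n : ℕ => uniformOn (Set.Iic ⌊(n : ℝ) ^ (γ * k)⌋₊))

/-- general perturbations. -/
def General : Prop :=
  ∀ (Ω : Type) (_ : MeasurableSpace Ω) (μ : Measure Ω) (_ : IsProbabilityMeasure μ)
    (X : ℕ → Ω → ℕ) (k : ℕ) (γ c C : ℝ), 2 ≤ k → 0 < γ → γ < 1 → 0 < c → 0 < C →
    Smoothed μ X k γ c C →
    ∀ᵐ ω ∂μ, ∀ s : ℕ, (γ + Real.log (1 / γ)) * k + 2 ≤ s → AllLarge k (fun n => X n ω) s

/-- the uniform model. -/
def Uniform : Prop :=
  ∀ (k : ℕ) (γ : ℝ), 2 ≤ k → 0 < γ → γ < 1 →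
    IsProbabilityMeasure (uniformModel k γ) ∧
    (∀ᵐ x ∂(uniformModel k γ), (∀ n : ℕ, 1 ≤ n → (x n : ℝ) ≤ (n : ℝ) ^ (γ * k)) ∧
      (∀ s : ℕ, (γ + Real.log (1 / γ)) * k + 2 ≤ s → AllLarge k x s) ∧
      (32 ≤ k → 1 / 50 ≤ γ → AllLarge k x (4 * k)))

theorem fifty {k : ℕ} (hk : 32 ≤ k) {γ : ℝ} (h : 1 / 50 ≤ γ) (h1 : γ < 1) :
    (γ + Real.log (1 / γ)) * k + 2 ≤ ((4 * k : ℕ) : ℝ) := by
  have hk' : (32 : ℝ) ≤ k := by exact_mod_cast hk
  have hγ : 0 < γ := by linarith
  have hlog : Real.log (1 / γ) = - Real.log γ := by rw [one_div, Real.log_inv]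
  -- the function `γ - log γ` decreases
  have h2 : γ - Real.log γ ≤ 1 / 50 + Real.log 50 := by
    have h3 : Real.log (γ / (1 / 50)) ≥ 1 - (1 / 50) / γ := by
      have h4 := Real.log_le_sub_one_of_pos (show (0 : ℝ) < (1 / 50) / γ by positivity)
      have h5 : Real.log (γ / (1 / 50)) = - Real.log ((1 / 50) / γ) := by
        rw [← Real.log_inv, inv_div]
      rw [h5]
      linarith
    have h6 : Real.log (γ / (1 / 50)) = Real.log γ + Real.log 50 := by
      rw [Real.log_div hγ.ne' (by norm_num), one_div, Real.log_inv]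
      ring
    have h7 : γ - 1 / 50 ≤ 1 - (1 / 50) / γ := by
      have h8 : 1 - (1 / 50) / γ - (γ - 1 / 50) = (1 - γ) * (γ - 1 / 50) / γ := by
        field_simp
      have h9 : 0 ≤ (1 - γ) * (γ - 1 / 50) / γ :=
        div_nonneg (mul_nonneg (by linarith) (by linarith)) hγ.le
      linarith
    linarith
  have h10 : Real.log 50 ≤ 3.9175 := by
    rw [Real.log_le_iff_le_exp (by norm_num)]
    have e1 : Real.exp 3.9175 = Real.exp 1 ^ 4 * Real.exp (-0.0825) := by
      rw [← Real.exp_nat_mul, ← Real.exp_add]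
      norm_num
    have e2 : (2.7182818283 : ℝ) ^ 4 ≤ Real.exp 1 ^ 4 := by
      gcongr
      exact Real.exp_one_gt_d9.le
    have e3 : (0.9175 : ℝ) ≤ Real.exp (-0.0825) := by
      have := Real.add_one_le_exp (-0.0825 : ℝ)
      norm_num at this ⊢
      linarith
    rw [e1]
    calc (50 : ℝ) ≤ (2.7182818283 : ℝ) ^ 4 * 0.9175 := by norm_num
      _ ≤ _ := by gcongr
  rw [hlog]
  push_cast
  norm_num at h10
  nlinarith

theorem general : General := by
  intro Ω _ μ _ X k γ c C hk hγ hγ1 hc hC h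
  filter_upwards [Pool.Agent.J4H38.SW.main h.meas h.indep hk hγ hγ1 hc hC h.upper h.lower h.le]
    with ω hω s hs
  obtain ⟨N₀, hN₀⟩ := Filter.eventually_atTop.1 (hω s hs)
  refine ⟨N₀, fun N hN => ?_⟩
  obtain ⟨n, hn1, hn2⟩ := hN₀ N hN
  exact ⟨n, hn1, hn2.symm⟩

theorem uniformOn_real (K j : ℕ) : (uniformOn (Set.Iic K)).real {j} =
    if j ≤ K then 1 / ((K : ℝ) + 1) else 0 := by
  have h1 : (uniformOn ((Finset.Iic K : Finset ℕ) : Set ℕ)) (({j} : Finset ℕ) : Set ℕ) =
      ((Finset.Iic K ∩ {j}).card : ENNReal) / (Finset.Iic K).card := uniformOn_apply_finset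
  rw [Finset.coe_Iic, Finset.coe_singleton] at h1
  rw [Measure.real, h1, ENNReal.toReal_div]
  simp only [ENNReal.toReal_natCast, Nat.card_Iic]
  split_ifs with h
  · rw [Finset.inter_singleton_of_mem (Finset.mem_Iic.2 h)]
    simp
  · rw [Finset.inter_singleton_of_notMem (fun hc => h (Finset.mem_Iic.1 hc))]
    simp

instance prob (K : ℕ) : IsProbabilityMeasure (uniformOn (Set.Iic K)) :=
  isProbabilityMeasure_uniformOn (Set.finite_Iic K) ⟨0, Nat.zero_le _⟩

theorem eval_real (k : ℕ) (γ : ℝ) (n j : ℕ) :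
    (uniformModel k γ).real {x | x n = j} =
      if j ≤ ⌊(n : ℝ) ^ (γ * k)⌋₊ then 1 / ((⌊(n : ℝ) ^ (γ * k)⌋₊ : ℝ) + 1) else 0 := by
  rw [← uniformOn_real]
  have h := measurePreserving_eval_infinitePi
    (fun n : ℕ => uniformOn (Set.Iic ⌊(n : ℝ) ^ (γ * k)⌋₊)) n
  have h2 := h.measureReal_preimage (s := {j}) (measurableSet_singleton j).nullMeasurableSet
  exact h2

theorem smoothed (k : ℕ) {γ : ℝ} (hγ : 0 < γ) :
    Smoothed (uniformModel k γ) (fun n (x : ℕ → ℕ) => x n) k γ (1 / 2) 1 where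
  meas := fun n => measurable_pi_apply n
  indep := iIndepFun_infinitePi (X := fun _ x => x) (fun _ => measurable_id)
  le := by
    intro n _ j hj
    rw [eval_real, if_neg]
    intro hc
    have h1 : (j : ℝ) ≤ (n : ℝ) ^ (γ * k) :=
      le_trans (by exact_mod_cast hc) (Nat.floor_le (by positivity))
    linarith
  upper := by
    intro n hn j
    have hn' : (1 : ℝ) ≤ n := by exact_mod_cast hn
    have hp : 1 ≤ (n : ℝ) ^ (γ * k) := Real.one_le_rpow hn' (by positivity)
    rw [eval_real]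
    split_ifs
    · have := (Nat.lt_floor_add_one ((n : ℝ) ^ (γ * k))).le
      exact div_le_div_of_nonneg_left one_pos.le (by linarith) this
    · positivity
  lower := by
    intro n hn j hj
    have hn' : (1 : ℝ) ≤ n := by exact_mod_cast hn
    have hp : 1 ≤ (n : ℝ) ^ (γ * k) := Real.one_le_rpow hn' (by positivity)
    have hj' : j ≤ ⌊(n : ℝ) ^ (γ * k)⌋₊ := by
      apply Nat.le_floor
      linarith
    rw [eval_real, if_pos hj', div_div]
    have h1 : (⌊(n : ℝ) ^ (γ * k)⌋₊ : ℝ) ≤ (n : ℝ) ^ (γ * k) := Nat.floor_le (by positivity)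
    exact div_le_div_of_nonneg_left one_pos.le (by positivity) (by linarith)

theorem uniform : Uniform := by
  intro k γ hk hγ hγ1
  have hP : IsProbabilityMeasure (uniformModel k γ) := by
    unfold uniformModel
    infer_instance
  refine ⟨hP, ?_⟩
  have hS := smoothed k hγ
  have h1 : ∀ᵐ x ∂(uniformModel k γ), ∀ n : ℕ, 1 ≤ n → (x n : ℝ) ≤ (n : ℝ) ^ (γ * k) := by
    have h2 : ∀ᵐ x ∂(uniformModel k γ), ∀ n j : ℕ, 1 ≤ n → (n : ℝ) ^ (γ * k) < j → x n ≠ j := by
      refine ae_all_iff.2 (fun n => ae_all_iff.2 (fun j => ?_))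
      by_cases hn : 1 ≤ n
      · by_cases hj : (n : ℝ) ^ (γ * k) < j
        · have h3 := hS.le n hn j (by linarith)
          rw [measureReal_eq_zero_iff] at h3
          have h4 : ∀ᵐ x ∂(uniformModel k γ), ¬ x n = j := by
            rw [ae_iff]
            simpa using h3
          filter_upwards [h4] with x hx _ _
          exact hx
        · exact Filter.Eventually.of_forall (fun x _ h => absurd h hj)
      · exact Filter.Eventually.of_forall (fun x h => absurd h hn)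
    filter_upwards [h2] with x hx n hn
    by_contra hcon
    exact hx n (x n) hn (not_le.1 hcon) rfl
  filter_upwards [h1, general (ℕ → ℕ) _ (uniformModel k γ) hP _ k γ (1 / 2) 1 hk hγ hγ1
    (by norm_num) one_pos hS] with x hx1 hx2
  exact ⟨hx1, hx2, fun hk32 hγ50 => hx2 _ (fifty hk32 hγ50 hγ1)⟩

/-- Almost surely every large integer is a sum of `s` perturbed `k`-th powers, for every
`s ≥ (γ + log (1 / γ)) k + 2`; in particular `4k` terms suffice for `γ ≥ 1 / 50`, `k ≥ 32`. -/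
theorem result : General ∧ Uniform := ⟨general, uniform⟩

end Pool.Agent.Results.MP_ee77ae_nt.SmoothedWaring
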