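import Pool.Agent.J4H7.WM.G

set_option autoImplicit false

/-!
# Fewer than `4 k` variables, most of them pure, for almost every coefficient

Question Q1 asks whether every large integer is a sum of `4 k` positive `k`-th powers.  Here is the same statement, for
every large `k`, for sums

`x_1 ^ k + ... + x_u ^ k + ⌊λ y_1 ^ k⌋ + ... + ⌊λ y_v ^ k⌋`

with ONE additional coefficient `λ > 0` (for `λ = 1` these are the sums of `u + v` `k`-th powers): for almost every
`λ > 0`, for all `k ≥ 2`, every large integer has this form as soon as

`exp (-(u - 3) / (2 k)) + exp (-(v - 2) / (2 k)) ≤ 1`.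

For example `u = v + 1 ≥ 2 log 2 · k + 3` (about `2.78 k` variables in all); or `u + v = 4 k` with `v ≈ 0.36 k` (91 per
cent of the `4 k` variables are pure `k`-th powers); or `v = ε k + O(1)` and `u = O_ε(k)`, for every `ε > 0`.  For `λ = 1`
no linear bound is known.

Proof (files `Pool/Agent/J4H7/WM`, `Pool/Agent/J4H7/WL` and `Pool/Agent/J4H7/WE`).  The variables `x_i, y_i` of level `i`
are of size `X_i = X ^ (q ^ i)`, with `q` a little less than `√(1 - 1/k)`; the levels have alternately the coefficients
`1` and `λ`, and all but `n` levels of the first and `r` levels of the second kind are left out.  In a near-coincidence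
`|∑ c_i (x_i ^ k - y_i ^ k)| ≤ m`, with `i` the first index with `x_i ≠ y_i`, only the levels `i` and `i + 1` are of size
`|x_i - y_i| X_i ^ (k - 1)` or more, and they have DIFFERENT coefficients; so the derivative with respect to `λ` is large,
and the `λ` with this near-coincidence form a short interval.  Summation and the Borel-Cantelli lemma give the optimal
number `X ^ (-k + ε) ∏ X_i ²` of near-coincidences for almost every `λ`.  Two further variables, one of each kind, give a
power saving at every frequency outside the central one (inverse theorem for Weyl sums, and a Diophantine condition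
on `λ`).
-/

namespace Pool.Agent.Results.MP_ee77ae_nt.TwoCoefficients

open MeasureTheory

/-- **Waring's problem with a second coefficient: for almost every coefficient fewer than `4 k` variables, most of them
pure.** -/
theorem result : ∀ᵐ l : ℝ, 0 < l → ∀ k u v : ℕ, 2 ≤ k →
    Real.exp (-((u - 3 : ℝ) / (2 * k))) + Real.exp (-((v - 2 : ℝ) / (2 * k))) ≤ 1 →
    ∃ N₀ : ℕ, ∀ N : ℕ, N₀ ≤ N → ∃ (x : Fin u → ℕ) (y : Fin v → ℕ), (∀ i, 1 ≤ x i) ∧ (∀ j, 1 ≤ y j) ∧
      ∑ i, (x i) ^ k + ∑ j, ⌊l * (y j : ℝ) ^ k⌋₊ = N :=
  Pool.Agent.J4H7.WM.main_all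

end Pool.Agent.Results.MP_ee77ae_nt.TwoCoefficients
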